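import Mathlib
import Pool.Agent.W603.BP.Germ

set_option autoImplicit false

/-! # Sums of few terms which are zero free functions times `M`-th powers: definitions -/

namespace Pool.Agent.R849.HP

open Filter Topology Pool.Agent.W603.BP

variable {N : ℕ}

/-- Near the puncture `0` the coordinates of `f` are sums of `r` terms `ρ_j e_j g_j ^ M` with
functions `e_j` without zeros and arbitrary functions `g_j`, both holomorphic near the puncture
(usually with essential singularities), and coefficients `ρ_j` meromorphic at the puncture. -/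
def PowerSum (r M : ℕ) (f : ℂ → Fin (N + 1) → ℂ) : Prop :=
  ∃ (e g : Fin r → ℂ → ℂ) (ρ : Fin r → Fin (N + 1) → ℂ → ℂ),
    (∀ j, Pun (e j)) ∧ (∀ j, ∀ᶠ w in 𝓝[≠] (0 : ℂ), e j w ≠ 0) ∧ (∀ j, Pun (g j)) ∧
    (∀ j a, MeromorphicAt (ρ j a) 0) ∧
    ∀ᶠ w in 𝓝[≠] (0 : ℂ), ∀ a, f w a = ∑ j, ρ j a w * (e j w * g j w ^ M)

/-- Near the puncture `0` the function `q` is `e g ^ M` with a function `e` without zeros and an
arbitrary function `g`, both holomorphic near the puncture. So the multiplicities of the zeros of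
`q` near the puncture are multiples of `M`. -/
def PowerUnit (M : ℕ) (q : ℂ → ℂ) : Prop :=
  ∃ e g : ℂ → ℂ, Pun e ∧ (∀ᶠ w in 𝓝[≠] (0 : ℂ), e w ≠ 0) ∧ Pun g ∧
    ∀ᶠ w in 𝓝[≠] (0 : ℂ), q w = e w * g w ^ M

end Pool.Agent.R849.HP
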