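import Mathlib
import Pool.Agent.R849.UP.Ent
import Pool.Agent.R849.FC.Deg

set_option autoImplicit false

/-! # Sums of terms which are zero free functions times `M`-th powers, near a puncture -/

namespace Pool.Agent.R849.HP

open Filter Metric Set Topology MvPolynomial Pool.Agent.W603.BP Pool.Agent.R849.UP

variable {R n : ℕ}

/-- `u` has an `M`-th root after the substitution `t ^ M` -/
def Rt (M : ℕ) (u : ℂ → ℂ) : Prop :=
  ∃ g : ℂ → ℂ, Pun g ∧ ∀ᶠ t in 𝓝[≠] (0 : ℂ), g t ^ M = u (t ^ M)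

theorem Rt.of {M : ℕ} (hM : 0 < M) {u e g : ℂ → ℂ} (he : Pun e)
    (he0 : ∀ᶠ w in 𝓝[≠] (0 : ℂ), e w ≠ 0) (hg : Pun g)
    (h : ∀ᶠ w in 𝓝[≠] (0 : ℂ), u w = e w * g w ^ M) : Rt M u := by
  obtain ⟨r, hr1, hr2⟩ := root he he0 hM
  refine ⟨fun t => r t * g (t ^ M), hr1.mul (hg.comp_pow hM), ?_⟩
  filter_upwards [hr2, (tendsto_pow_punct hM).eventually h] with t h1 h2
  rw [mul_pow, h1, h2]

/-- the parts of a relation between such functions with meromorphic coefficients -/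
theorem keyP {M : ℕ} (hM : 0 < M) (u : Fin R → ℂ → ℂ) (hu : ∀ j, Pun (u j))
    (hr : ∀ j, Rt M (u j)) (b : Fin R → ℤ)
    (hb : ∀ γ ∈ Mon u, ∑ j, γ j * b j = 0) (A : Finset (Fin R →₀ ℕ)) (hA : (A.card - 1) ^ 2 ≤ M)
    (c : (Fin R →₀ ℕ) → ℂ → ℂ) (hc : ∀ m, MeromorphicAt (c m) 0)
    (h : ∀ᶠ w in 𝓝[≠] (0 : ℂ), ∑ m ∈ A, c m w * ∏ j, u j w ^ m j = 0) (v : ℤ) :
    ∀ᶠ w in 𝓝[≠] (0 : ℂ), ∑ m ∈ A.filter (fun m => ∑ j, (m j : ℤ) * b j = v),
      c m w * ∏ j, u j w ^ m j = 0 := by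
  classical
  choose r hr1 hr2 using hr
  let e : (Fin R →₀ ℕ) → ℂ → ℂ := fun m w => ∏ j, u j w ^ m j
  have heP : ∀ m, Pun (e m) := fun m => Pun.prod _ fun j _ => (hu j).pow _
  have heR : ∀ m, ∃ g : ℂ → ℂ, Pun g ∧ ∀ᶠ t in 𝓝[≠] (0 : ℂ), g t ^ M = e m (t ^ M) := by
    intro m
    refine ⟨fun t => ∏ j, r j t ^ m j, Pun.prod _ fun j _ => (hr1 j).pow _, ?_⟩
    have hall : ∀ᶠ t in 𝓝[≠] (0 : ℂ), ∀ j, r j t ^ M = u j (t ^ M) := by
      rw [Filter.eventually_all]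
      exact hr2
    filter_upwards [hall] with t ht
    show (∏ j, r j t ^ m j) ^ M = ∏ j, u j (t ^ M) ^ m j
    rw [← Finset.prod_pow]
    refine Finset.prod_congr rfl fun j _ => ?_
    rw [← pow_mul, mul_comm, pow_mul, ht j]
  let col : (Fin R →₀ ℕ) → ℤ := fun m => ∑ j, (m j : ℤ) * b j
  have hcol : ∀ α β, Nz (e α) → Nz (e β) → Gr (e α) (e β) → col α = col β := by
    intro α β hα hβ hg
    have h1 := hb _ (Mon_of_gr (f := u) hu (fun j => α j) (fun j => β j) hα hβ hg)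
    simp only [sub_mul, Finset.sum_sub_distrib] at h1
    show ∑ j, (α j : ℤ) * b j = ∑ j, (β j : ℤ) * b j
    linarith
  exact color_sums hM e heP heR col hcol A hA c hc h v

/-- **One parameter groups.** -/
theorem key_tP {M : ℕ} (hM : 0 < M) (u : Fin R → ℂ → ℂ) (hu : ∀ j, Pun (u j))
    (hr : ∀ j, Rt M (u j)) (b : Fin R → ℤ)
    (hb : ∀ γ ∈ Mon u, ∑ j, γ j * b j = 0) (ρ : Fin R × Fin n → ℂ → ℂ)
    (hρ : ∀ p, MeromorphicAt (ρ p) 0)
    (H : MvPolynomial (Fin R) (MvPolynomial (Fin R × Fin n) ℂ))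
    (hH : (H.support.card - 1) ^ 2 ≤ M)
    (h : ∀ᶠ w in 𝓝[≠] (0 : ℂ), eval₂ (eval fun p => ρ p w) (fun j => u j w) H = 0) :
    ∀ᶠ w in 𝓝[≠] (0 : ℂ), ∀ t : ℂ, t ≠ 0 →
      eval₂ (eval fun p => ρ p w) (fun j => u j w * t ^ b j) H = 0 := by
  classical
  have h1 : ∀ v : ℤ, ∀ᶠ w in 𝓝[≠] (0 : ℂ),
      ∑ m ∈ H.support.filter (fun m => ∑ j, (m j : ℤ) * b j = v),
        eval (fun p => ρ p w) (H.coeff m) * ∏ j, u j w ^ m j = 0 := by
    intro v
    refine keyP hM u hu hr b hb H.support hH (fun m w => eval (fun p => ρ p w) (H.coeff m))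
      (fun m => mero_eval ρ hρ _) ?_ v
    filter_upwards [h] with w hw
    rw [eval₂_eq'] at hw
    exact hw
  have h2 : ∀ᶠ w in 𝓝[≠] (0 : ℂ), ∀ v ∈ H.support.image (fun m => ∑ j, (m j : ℤ) * b j),
      ∑ m ∈ H.support.filter (fun m => ∑ j, (m j : ℤ) * b j = v),
        eval (fun p => ρ p w) (H.coeff m) * ∏ j, u j w ^ m j = 0 := by
    rw [Filter.eventually_all_finset]
    exact fun v _ => h1 v
  filter_upwards [h2] with w hw t ht
  rw [eval₂_eq']
  have h3 : ∑ m ∈ H.support, (eval fun p => ρ p w) (H.coeff m) * ∏ j, (u j w * t ^ b j) ^ m j =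
      ∑ m ∈ H.support, ((eval fun p => ρ p w) (H.coeff m) * ∏ j, u j w ^ m j) *
        t ^ (∑ j, (m j : ℤ) * b j) := by
    refine Finset.sum_congr rfl fun m _ => ?_
    rw [mul_assoc]
    congr 1
    have h4 : t ^ (∑ j, (m j : ℤ) * b j) = ∏ j, (t ^ b j) ^ m j := by
      rw [zpow_sum' ht]
      refine Finset.prod_congr rfl fun j _ => ?_
      rw [mul_comm, zpow_mul, zpow_natCast]
    rw [h4, ← Finset.prod_mul_distrib]
    exact Finset.prod_congr rfl fun j _ => by rw [mul_pow]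
  rw [h3]
  refine sum_shift H.support (fun m => ∑ j, (m j : ℤ) * b j) _ (fun v => ?_) t
  by_cases hv : v ∈ H.support.image (fun m => ∑ j, (m j : ℤ) * b j)
  · exact hw v hv
  · refine Finset.sum_eq_zero fun m hm => ?_
    exfalso
    apply hv
    rw [Finset.mem_filter] at hm
    exact Finset.mem_image.2 ⟨m, hm.1, hm.2⟩

/-- the number of monomials of degree at most `d` -/
theorem card_le {τ : Type} {H : MvPolynomial (Fin R) (MvPolynomial τ ℂ)} {D : ℕ}
    (hH : H.totalDegree ≤ D) : H.support.card ≤ (D + 1) ^ R := by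
  classical
  have h1 : H.support.card ≤
      (Fintype.piFinset (fun _ : Fin R => Finset.range (D + 1))).card := by
    refine Finset.card_le_card_of_injOn (fun m => (fun j => m j)) (fun m hm => ?_) ?_
    · rw [Finset.mem_coe, Fintype.mem_piFinset]
      intro j
      rw [Finset.mem_range]
      refine Nat.lt_succ_of_le (le_trans ?_ ((le_totalDegree hm).trans hH))
      rw [Finsupp.sum_fintype _ _ (by simp)]
      exact Finset.single_le_sum (f := fun a => m a) (fun _ _ => Nat.zero_le _) (Finset.mem_univ j)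
    · intro m _ m' _ hmm
      exact Finsupp.ext fun j => congrFun hmm j
  rwa [Fintype.card_piFinset_const, Finset.card_range] at h1

theorem card_sq_le {τ : Type} {H : MvPolynomial (Fin R) (MvPolynomial τ ℂ)} {D M : ℕ}
    (hH : H.totalDegree ≤ D) (hM : (D + 1) ^ (2 * R) ≤ M) : (H.support.card - 1) ^ 2 ≤ M := by
  refine le_trans ?_ hM
  rw [mul_comm, pow_mul]
  exact Nat.pow_le_pow_left ((Nat.sub_le _ _).trans (card_le hH)) 2

end Pool.Agent.R849.HP
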