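import Mathlib
import Pool.Agent.R849.HP.Key

set_option autoImplicit false

/-! # Curves whose coordinates are sums of few high powers: the multiplicative group -/

namespace Pool.Agent.R849.HP

open Filter Metric Set Topology MvPolynomial Pool.Agent.W603.BP Pool.Agent.TH143
open Pool.Agent.R849.UP
open Pool.Agent.H159R3.Exp (Laur)

variable {N : ℕ} {ι : Type}

/-- **The main step.** -/
theorem sum_global {d r M : ℕ} (hM : (d + 2) ^ (2 * (r + 1)) ≤ M) (f : ℂ → Fin (N + 1) → ℂ)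
    (hf : ∀ j, AnalyticOnNhd ℂ (fun w => f w j) (PB 1)) (hne : ∀ w ∈ PB 1, f w ≠ 0)
    (u0 : Fin r → ℂ → ℂ) (ρ0 : Fin r → Fin (N + 1) → ℂ → ℂ) (hu0 : ∀ j, Pun (u0 j))
    (hn0 : ∀ j, Nz (u0 j)) (hr0 : ∀ j, Rt M (u0 j)) (hρ0 : ∀ j a, MeromorphicAt (ρ0 j a) 0)
    (hfu0 : ∀ᶠ w in 𝓝[≠] (0 : ℂ), ∀ a, f w a = ∑ j, u0 j w * ρ0 j a w)
    (Q : MvPolynomial (Fin (N + 1)) ℂ) (hQd : Q.totalDegree ≤ d)
    (hQn : Nz (fun w => eval (f w) Q)) (hQr : Rt M (fun w => eval (f w) Q))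
    (hE : ¬ Extends f) :
    ∃ b0 : Fin r → ℤ, ∃ δ > 0, δ ≤ 1 ∧ ∀ z0 ∈ PB δ, ∀ᶠ z in 𝓝[≠] z0,
      ∃ w : ℂ → Fin (N + 1) → ℂ, (∀ t a, w t a = ∑ j, u0 j z * t ^ b0 j * ρ0 j a z) ∧
      (∀ j, Laur (fun t => w t j)) ∧ w 1 = f z ∧ (∀ t, t ≠ 0 → eval (w t) Q ≠ 0) ∧
      (∃ t, t ≠ 0 ∧ ∃ j0 j1, w t j1 * w 1 j0 ≠ w t j0 * w 1 j1) ∧
      ∀ G : MvPolynomial (Fin (N + 1)) ℂ, G.totalDegree ≤ d → (∀ z ∈ PB 1, eval (f z) G = 0) →
        ∀ t, t ≠ 0 → eval (w t) G = 0 := by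
  classical
  have hM0 : 0 < M := lt_of_lt_of_le (by positivity) hM
  have hqan : AnalyticOnNhd ℂ (fun w => eval (f w) Q) (PB 1) := eval_an hf Q
  -- the terms together with `Q (f)`
  obtain ⟨u, hu, hnz, hur, huQ, ρ, hus, hρ, hfu⟩ : ∃ u : Fin (r + 1) → ℂ → ℂ, (∀ j, Pun (u j)) ∧
      (∀ j, Nz (u j)) ∧ (∀ j, Rt M (u j)) ∧ (∀ w, u 0 w = eval (f w) Q) ∧
      ∃ ρ : Fin (r + 1) × Fin (N + 1) → ℂ → ℂ, (∀ (c : Fin (r + 1) → ℂ) z a,
        ∑ j, ρ (j, a) z * (u j z * c j) = ∑ j, u0 j z * c j.succ * ρ0 j a z) ∧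
      (∀ p, MeromorphicAt (ρ p) 0) ∧
      ∀ᶠ w in 𝓝[≠] (0 : ℂ), ∀ a, f w a = ∑ j, ρ (j, a) w * u j w := by
    refine ⟨Fin.cons (fun w => eval (f w) Q) u0, fun j => ?_, fun j => ?_, fun j => ?_,
      fun w => rfl,
      fun p => (Fin.cons (fun _ _ => 0) ρ0 : Fin (r + 1) → Fin (N + 1) → ℂ → ℂ) p.1 p.2,
      fun c z a => ?_, fun p => ?_, ?_⟩
    · refine Fin.cases ?_ (fun j => ?_) j
      · exact on_pun one_pos hqan
      · exact hu0 j
    · refine Fin.cases ?_ (fun j => ?_) j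
      · exact hQn
      · exact hn0 j
    · refine Fin.cases ?_ (fun j => ?_) j
      · exact hQr
      · exact hr0 j
    · rw [Fin.sum_univ_succ]
      simp only [Fin.cons_zero, Fin.cons_succ, zero_mul, zero_add]
      exact Finset.sum_congr rfl fun j _ => mul_comm _ _
    · obtain ⟨j, a⟩ := p
      refine Fin.cases ?_ (fun j => ?_) j
      · exact MeromorphicAt.const 0 0
      · exact hρ0 j a
    · filter_upwards [hfu0] with w hw a
      rw [Fin.sum_univ_succ, hw a]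
      simp only [Fin.cons_zero, Fin.cons_succ, zero_mul, zero_add]
      exact Finset.sum_congr rfl fun j _ => mul_comm _ _
  -- a common disc
  obtain ⟨δ, hδ0, hδ1, hua, hρa, hfa⟩ : ∃ δ > 0, δ ≤ 1 ∧
      (∀ j, AnalyticOnNhd ℂ (u j) (PB δ)) ∧
      (∀ p, AnalyticOnNhd ℂ (ρ p) (PB δ)) ∧
      ∀ w ∈ PB δ, ∀ a, f w a = ∑ j, ρ (j, a) w * u j w := by
    have h1 : ∀ᶠ w in 𝓝[≠] (0 : ℂ), ∀ j, AnalyticAt ℂ (u j) w := by
      rw [Filter.eventually_all]; exact hu
    have h3 : ∀ᶠ w in 𝓝[≠] (0 : ℂ), ∀ p, AnalyticAt ℂ (ρ p) w := by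
      rw [Filter.eventually_all]; exact fun p => Pun.mero (hρ p)
    obtain ⟨δ, hδ, h⟩ := ev_iff.mp (h1.and (h3.and hfu))
    refine ⟨min δ 1, lt_min hδ one_pos, min_le_right _ _, fun j w hw => ?_,
      fun p w hw => ?_, fun w hw => ?_⟩
    · exact (h w (PB_mono (min_le_left _ _) hw)).1 j
    · exact (h w (PB_mono (min_le_left _ _) hw)).2.1 p
    · exact (h w (PB_mono (min_le_left _ _) hw)).2.2
  have hsubs : PB δ ⊆ PB 1 := PB_mono hδ1
  have hfan : ∀ a, AnalyticOnNhd ℂ (fun w => f w a) (PB δ) := fun a => (hf a).mono hsubs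
  -- the linear form
  let dv : Fin (r + 1) × Fin (r + 1) → (Fin (r + 1) → ℤ) := fun p =>
    Pi.single p.1 1 - Pi.single p.2 1
  obtain ⟨b, hb1, hb2⟩ := exists_sep (Mon u) (Mon_sat u hu)
    ((Finset.univ.image dv).filter (fun γ => γ ∉ Mon u)) (fun p hp => (Finset.mem_filter.1 hp).2)
  have hsep : ∀ j k, b j = b k → MRel (u j) (u k) := by
    intro j k hjk
    apply MRel_of_Mon hu j k (hnz j) (hnz k)
    by_contra hn
    have h1 := hb2 (Pi.single j 1 - Pi.single k 1) (Finset.mem_filter.2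
      ⟨Finset.mem_image.2 ⟨(j, k), Finset.mem_univ _, rfl⟩, hn⟩)
    apply h1
    simp only [Pi.sub_apply, sub_mul, Finset.sum_sub_distrib, Pi.single_apply, ite_mul, one_mul,
      zero_mul, Finset.sum_ite_eq', Finset.mem_univ, if_true]
    rw [hjk, sub_self]
  let W : ℂ → ℂ → Fin (N + 1) → ℂ := fun z t a => ∑ j, ρ (j, a) z * (u j z * t ^ b j)
  have hW1 : ∀ z ∈ PB δ, W z 1 = f z := by
    intro z hz
    funext a
    rw [hfa z hz a]
    exact Finset.sum_congr rfl fun j _ => by rw [one_zpow, mul_one]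
  have hWan : ∀ t a, AnalyticOnNhd ℂ (fun z => W z t a) (PB δ) := by
    intro t a z hz
    apply Finset.analyticAt_fun_sum
    intro j _
    exact (hρa (j, a) z hz).fun_mul ((hua j z hz).fun_mul analyticAt_const)
  have hWev : ∀ t (G : MvPolynomial (Fin (N + 1)) ℂ),
      AnalyticOnNhd ℂ (fun z => eval (W z t) G) (PB δ) := by
    intro t G z hz
    simp only [eval_eq']
    apply Finset.analyticAt_fun_sum
    intro α _
    apply AnalyticAt.fun_mul analyticAt_const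
    apply Finset.analyticAt_fun_prod
    intro j _
    exact (hWan t j z hz).fun_pow _
  -- equations
  have hG : ∀ G : MvPolynomial (Fin (N + 1)) ℂ, G.totalDegree ≤ d →
      (∀ z ∈ PB 1, eval (f z) G = 0) → ∀ t, t ≠ 0 → ∀ z ∈ PB δ, eval (W z t) G = 0 := by
    intro G hGd hG t ht
    apply eq_zero_on hδ0 (hWev t G)
    have h1 := key_tP hM0 u hu hur b hb1 ρ hρ (ex G)
      (card_sq_le ((FC.ex_totalDegree hGd).trans (Nat.le_succ _)) hM) (by
      filter_upwards [PB_mem hδ0] with w hw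
      rw [ex_eval, show (fun a => ∑ j, ρ (j, a) w * u j w) = f w from
        funext fun a => (hfa w hw a).symm]
      exact hG w (hsubs hw))
    filter_upwards [h1] with w hw
    have h2 := hw t ht
    rw [ex_eval] at h2
    exact h2
  -- the boundary
  have hQt : ∀ t, t ≠ 0 → ∀ z ∈ PB δ, eval (W z t) Q - u 0 z * t ^ b 0 = 0 := by
    intro t ht
    have han : AnalyticOnNhd ℂ (fun z => eval (W z t) Q - u 0 z * t ^ b 0) (PB δ) := fun z hz =>
      (hWev t Q z hz).fun_sub ((hua 0 z hz).fun_mul analyticAt_const)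
    apply eq_zero_on hδ0 han
    have h1 := key_tP hM0 u hu hur b hb1 ρ hρ (ex Q - X 0)
      (card_sq_le ((totalDegree_sub _ _).trans
        (max_le ((FC.ex_totalDegree hQd).trans (Nat.le_succ _)) (by
          rw [totalDegree_X]; omega))) hM) (by
      filter_upwards [PB_mem hδ0] with w hw
      rw [eval₂_sub, eval₂_X, ex_eval, huQ]
      rw [show (fun a => ∑ j, ρ (j, a) w * u j w) = f w from
        funext fun a => (hfa w hw a).symm, sub_self])
    filter_upwards [h1] with w hw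
    have h2 := hw t ht
    rw [eval₂_sub, eval₂_X, ex_eval] at h2
    exact h2
  -- the curves are not constant
  obtain ⟨t0, ht0, a0, a1, hD⟩ : ∃ t : ℂ, t ≠ 0 ∧ ∃ a0 a1, Nz (fun z => W z t a1 * f z a0 -
      W z t a0 * f z a1) := by
    by_contra hcon
    push Not at hcon
    have hD0 : ∀ a0 a1, ∀ z ∈ PB δ, ∀ t, t ≠ 0 → W z t a1 * f z a0 - W z t a0 * f z a1 = 0 := by
      intro a0 a1 z hz t ht
      have h1 : ¬ Nz (fun z => W z t a1 * f z a0 - W z t a0 * f z a1) := hcon t ht a0 a1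
      have han : AnalyticOnNhd ℂ (fun z => W z t a1 * f z a0 - W z t a0 * f z a1) (PB δ) :=
        fun z hz => ((hWan t a1 z hz).fun_mul (hfan a0 z hz)).fun_sub
          ((hWan t a0 z hz).fun_mul (hfan a1 z hz))
      exact eq_zero_on hδ0 han (not_not.1 h1) z hz
    -- coefficients
    let y : ℤ → Fin (N + 1) → ℂ → ℂ := fun c a z =>
      ∑ j ∈ Finset.univ.filter (fun j => b j = c), ρ (j, a) z * u j z
    have hy : ∀ a0 a1, ∀ z ∈ PB δ, ∀ c, y c a1 z * f z a0 - y c a0 z * f z a1 = 0 := by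
      intro a0 a1 z hz c
      have h1 := coeff_zero Finset.univ b (fun j => ρ (j, a1) z * u j z * f z a0 -
        ρ (j, a0) z * u j z * f z a1) (fun t ht => by
          rw [← hD0 a0 a1 z hz t ht]
          simp only [W]
          rw [Finset.sum_mul, Finset.sum_mul, ← Finset.sum_sub_distrib]
          exact Finset.sum_congr rfl fun j _ => by ring) c
      rw [Finset.sum_sub_distrib, ← Finset.sum_mul, ← Finset.sum_mul] at h1
      exact h1
    have hyP : ∀ c a, Pun (y c a) := fun c a => Pun.sum _ fun j _ => (Pun.mero (hρ _)).mul (hu j)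
    -- one coefficient is not zero
    obtain ⟨c, a, hca⟩ : ∃ c a, Nz (y c a) := by
      by_contra hcon2
      push Not at hcon2
      have h1 : ∀ᶠ w in 𝓝[≠] (0 : ℂ), ∀ c ∈ (Finset.univ.image b), ∀ a, y c a w = 0 := by
        rw [Filter.eventually_all_finset]
        intro c _
        rw [Filter.eventually_all]
        intro a
        exact not_not.1 (hcon2 c a)
      obtain ⟨w, hw1, hw2⟩ := (h1.and (PB_mem hδ0)).exists
      apply hne w (hsubs hw2)
      funext a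
      rw [hfa w hw2 a, ← Finset.sum_fiberwise_of_maps_to (t := Finset.univ.image b) (g := b)
        (fun j hj => Finset.mem_image_of_mem b hj)]
      exact Finset.sum_eq_zero fun c hc => hw1 c hc a
    obtain ⟨k, hk⟩ : ∃ k, b k = c := by
      by_contra hcon2
      push Not at hcon2
      apply hca
      refine Eventually.of_forall fun w => ?_
      show ∑ j ∈ Finset.univ.filter (fun j => b j = c), ρ (j, a) w * u j w = 0
      rw [Finset.filter_false_of_mem (fun j _ => hcon2 j), Finset.sum_empty]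
    have hrel : ∀ j, ∃ σ : ℂ → ℂ, MeromorphicAt σ 0 ∧ (b j = c →
        ∀ᶠ w in 𝓝[≠] (0 : ℂ), u j w = σ w * u k w) := by
      intro j
      by_cases hj : b j = c
      · obtain ⟨σ, h1, h2⟩ := hsep j k (hj.trans hk.symm)
        exact ⟨σ, h1, fun _ => h2⟩
      · exact ⟨fun _ => 0, MeromorphicAt.const 0 0, fun h => absurd h hj⟩
    choose σ hσ1 hσ2 using hrel
    let τ : Fin (N + 1) → ℂ → ℂ := fun a w =>
      ∑ j ∈ Finset.univ.filter (fun j => b j = c), ρ (j, a) w * σ j w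
    have hτ : ∀ a, MeromorphicAt (τ a) 0 := by
      intro a
      have h1 : τ a = ∑ j ∈ Finset.univ.filter (fun j => b j = c), fun w => ρ (j, a) w * σ j w := by
        funext w
        simp only [τ, Finset.sum_apply]
      rw [h1]
      exact MeromorphicAt.sum fun j _ => (hρ _).fun_mul (hσ1 j)
    have hyτ : ∀ᶠ w in 𝓝[≠] (0 : ℂ), ∀ a, y c a w = τ a w * u k w := by
      have h1 : ∀ᶠ w in 𝓝[≠] (0 : ℂ), ∀ j, b j = c → u j w = σ j w * u k w := by
        rw [Filter.eventually_all]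
        intro j
        by_cases hj : b j = c
        · filter_upwards [hσ2 j hj] with w hw _
          exact hw
        · exact Eventually.of_forall fun w h => absurd h hj
      filter_upwards [h1] with w hw a
      show ∑ j ∈ Finset.univ.filter (fun j => b j = c), ρ (j, a) w * u j w =
        (∑ j ∈ Finset.univ.filter (fun j => b j = c), ρ (j, a) w * σ j w) * u k w
      rw [Finset.sum_mul]
      refine Finset.sum_congr rfl fun j hj => ?_
      rw [hw j (Finset.mem_filter.1 hj).2]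
      ring
    have hτn : Nz (τ a) := by
      intro h0
      apply hca
      filter_upwards [h0, hyτ] with w h1 h2
      rw [h2 a, h1, zero_mul]
    have hτne := mero_ne (hτ a) hτn
    -- all coordinates are meromorphic multiples of the coordinate `a`
    have hall : ∀ j, MRel (fun w => f w j) (fun w => f w a) := by
      intro j
      refine ⟨fun w => τ j w / τ a w, (hτ j).fun_div (hτ a), ?_⟩
      have h7 : ∀ᶠ w in 𝓝[≠] (0 : ℂ), τ a w * f w j - τ j w * f w a = 0 := by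
        have hP1 : Pun (fun w => τ a w * f w j - τ j w * f w a) :=
          UP.Pun.sub' ((Pun.mero (hτ a)).mul (on_pun one_pos (hf j)))
            ((Pun.mero (hτ j)).mul (on_pun one_pos (hf a)))
        refine (pun_mul_zero (hu k) hP1 ?_).resolve_left (hnz k)
        filter_upwards [hyτ, PB_mem hδ0] with w h1 h3
        have h5 := hy j a w h3 c
        rw [h1 a, h1 j] at h5
        linear_combination h5
      filter_upwards [h7, hτne] with w h1 h2
      field_simp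
      linear_combination h1
    apply hE
    apply extends_of f hf hne
    intro j j' hj hj'
    have hP : ∀ j, Pun (fun w => f w j) := fun j => on_pun one_pos (hf j)
    exact MRel.trans' (hP j) (hP j') hj' (hall j) ((hall j').symm hj')
  refine ⟨fun j => b j.succ, δ, hδ0, hδ1, fun z0 hz0 => ?_⟩
  have hDan : AnalyticOnNhd ℂ (fun z => W z t0 a1 * f z a0 - W z t0 a0 * f z a1) (PB δ) :=
    fun z hz => ((hWan t0 a1 z hz).fun_mul (hfan a0 z hz)).fun_sub
      ((hWan t0 a0 z hz).fun_mul (hfan a1 z hz))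
  have hPB : ∀ᶠ z in 𝓝[≠] z0, z ∈ PB δ := mem_nhdsWithin_of_mem_nhds ((PB_open δ).mem_nhds hz0)
  filter_upwards [ev_ne_on hδ0 hDan hD z0 hz0, ev_ne_on hδ0 (hua 0) (hnz 0) z0 hz0, hPB] with
    z hz hz' hzδ
  refine ⟨W z, fun t a => hus (fun j => t ^ b j) z a, fun a => ?_, hW1 z hzδ, fun t ht => ?_,
    ⟨t0, ht0, a0, a1, ?_⟩, fun G hGd hGz t ht => hG G hGd hGz t ht z hzδ⟩
  · have h1 : ∀ s : Finset (Fin (r + 1)),
        Laur (fun t => ∑ j ∈ s, ρ (j, a) z * (u j z * t ^ b j)) := by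
      intro s
      induction s using Finset.induction_on with
      | empty => simpa using Laur.const (0 : ℂ)
      | insert j s hj ih =>
        simp only [Finset.sum_insert hj]
        exact ((Laur.const _).mul ((Laur.const _).mul (Laur.zpow _))).add ih
    exact h1 Finset.univ
  · have h1 := hQt t ht z hzδ
    rw [sub_eq_zero] at h1
    rw [h1]
    exact mul_ne_zero hz' (zpow_ne_zero _ ht)
  · rw [hW1 z hzδ]
    exact sub_ne_zero.1 hz

/-- curves on the punctured disc -/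
theorem punct_main {d r M : ℕ} (hM : (d + 2) ^ (2 * (r + 1)) ≤ M)
    (F : ι → MvPolynomial (Fin (N + 1)) ℂ) (hF : ∀ i, ∃ e ≤ d, (F i).IsHomogeneous e)
    (Q : MvPolynomial (Fin (N + 1)) ℂ) {e : ℕ} (he : e ≤ d) (hQ : Q.IsHomogeneous e)
    (f : ℂ → Fin (N + 1) → ℂ) (hf : ∀ j, AnalyticOnNhd ℂ (fun w => f w j) (PB 1))
    (hne : ∀ w ∈ PB 1, f w ≠ 0) (hX : ∀ w ∈ PB 1, ∀ i, eval (f w) (F i) = 0)
    (u0 : Fin r → ℂ → ℂ) (ρ0 : Fin r → Fin (N + 1) → ℂ → ℂ) (hu0 : ∀ j, Pun (u0 j))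
    (hn0 : ∀ j, Nz (u0 j)) (hr0 : ∀ j, Rt M (u0 j)) (hρ0 : ∀ j a, MeromorphicAt (ρ0 j a) 0)
    (hfu0 : ∀ᶠ w in 𝓝[≠] (0 : ℂ), ∀ a, f w a = ∑ j, u0 j w * ρ0 j a w)
    (hQn : Nz (fun w => eval (f w) Q)) (hQr : Rt M (fun w => eval (f w) Q))
    (hess : ¬ Extends f) :
    ∃ δ > 0, δ ≤ 1 ∧ ∀ z0 ∈ PB δ, ∀ᶠ z in 𝓝[≠] z0, ∃ P, (∀ t, ∃ j, (P j).eval t ≠ 0) ∧
      IsGmCurve F Q P ∧ Through P (f z) := by
  obtain ⟨b0, δ, hδ, hδ1, h⟩ := sum_global hM f hf hne u0 ρ0 hu0 hn0 hr0 hρ0 hfu0 Q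
    (hQ.totalDegree_le.trans he) hQn hQr hess
  refine ⟨δ, hδ, hδ1, fun z0 hz0 => ?_⟩
  have hPB : ∀ᶠ z in 𝓝[≠] z0, z ∈ PB δ := mem_nhdsWithin_of_mem_nhds ((PB_open δ).mem_nhds hz0)
  filter_upwards [h z0 hz0, hPB] with z hz hzδ
  obtain ⟨w, -, hw, hzf, hwQ, hnc, hR⟩ := hz
  obtain ⟨P, hP, hP1, hP2⟩ := gm_of_laur F (fun i => ⟨_, (hF i).choose_spec.2⟩) Q hQ w hw
    (by rw [hzf]; exact hne z (PB_mono hδ1 hzδ))
    (fun i t ht => by
      obtain ⟨e', he', hFe⟩ := hF i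
      exact hR (F i) (hFe.totalDegree_le.trans he') (fun x hx => hX x hx i) t ht) hwQ hnc
  refine ⟨P, hP, hP1, ?_⟩
  rw [← hzf]
  exact hP2

end Pool.Agent.R849.HP
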