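import Mathlib
import Pool.Agent.R849.HP.Defs
import Pool.Agent.R849.HP.Main

set_option autoImplicit false

/-! # Entire curves whose coordinates are sums of few high powers -/

namespace Pool.Agent.R849.HP

open MvPolynomial Metric Set Filter Topology Pool.Agent.W603.BP Pool.Agent.TH143
open Pool.Agent.R849.UP

variable {N : ℕ} {ι : Type}

theorem PowerSum.norm {r M : ℕ} (hM : 0 < M) {f : ℂ → Fin (N + 1) → ℂ} (h : PowerSum r M f) :
    ∃ (u0 : Fin r → ℂ → ℂ) (ρ0 : Fin r → Fin (N + 1) → ℂ → ℂ), (∀ j, Pun (u0 j)) ∧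
      (∀ j, Nz (u0 j)) ∧ (∀ j, Rt M (u0 j)) ∧ (∀ j a, MeromorphicAt (ρ0 j a) 0) ∧
      ∀ᶠ w in 𝓝[≠] (0 : ℂ), ∀ a, f w a = ∑ j, u0 j w * ρ0 j a w := by
  classical
  obtain ⟨e, g, ρ, he, he0, hg, hρ, hf⟩ := h
  have key : ∀ j, ∃ (u : ℂ → ℂ) (ρ' : Fin (N + 1) → ℂ → ℂ), Pun u ∧ Nz u ∧ Rt M u ∧
      (∀ a, MeromorphicAt (ρ' a) 0) ∧
      ∀ᶠ w in 𝓝[≠] (0 : ℂ), ∀ a, ρ j a w * (e j w * g j w ^ M) = u w * ρ' a w := by
    intro j
    by_cases hj : Nz (fun w => e j w * g j w ^ M)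
    · exact ⟨fun w => e j w * g j w ^ M, ρ j, (he j).mul ((hg j).pow M), hj,
        Rt.of hM (he j) (he0 j) (hg j) (Eventually.of_forall fun w => rfl), hρ j,
        Eventually.of_forall fun w a => mul_comm _ _⟩
    · refine ⟨fun _ => 1, fun _ _ => 0, Eventually.of_forall fun w => analyticAt_const,
        fun h0 => ?_, ⟨fun _ => 1, Eventually.of_forall fun w => analyticAt_const,
          Eventually.of_forall fun w => one_pow _⟩, fun a => MeromorphicAt.const 0 0, ?_⟩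
      · obtain ⟨w, hw⟩ := h0.exists
        exact one_ne_zero hw
      · have h1 := not_not.1 hj
        filter_upwards [h1] with w hw a
        rw [hw, mul_zero, mul_zero]
  choose u0 ρ0 h1 h2 h3 h4 h5 using key
  refine ⟨u0, ρ0, h1, h2, h3, h4, ?_⟩
  have h6 : ∀ᶠ w in 𝓝[≠] (0 : ℂ), ∀ j, ∀ a, ρ j a w * (e j w * g j w ^ M) = u0 j w * ρ0 j a w := by
    rw [Filter.eventually_all]
    exact h5
  filter_upwards [hf, h6] with w hw hw6 a
  rw [hw a]
  exact Finset.sum_congr rfl fun j _ => hw6 j a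

theorem PowerUnit.rt {M : ℕ} (hM : 0 < M) {q : ℂ → ℂ} (h : PowerUnit M q) : Rt M q := by
  obtain ⟨e, g, he, he0, hg, hq⟩ := h
  exact Rt.of hM he he0 hg hq

theorem PowerUnit.of_ne {M : ℕ} {q : ℂ → ℂ} (hq : Pun q) (h : ∀ᶠ w in 𝓝[≠] (0 : ℂ), q w ≠ 0) :
    PowerUnit M q :=
  ⟨q, fun _ => 1, hq, h, Eventually.of_forall fun w => analyticAt_const,
    Eventually.of_forall fun w => by simp⟩

/-- holomorphic maps from the punctured disc -/
theorem punct_pow {d r M : ℕ} (hM : (d + 2) ^ (2 * (r + 1)) ≤ M)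
    (F : ι → MvPolynomial (Fin (N + 1)) ℂ) (hF : ∀ i, ∃ e ≤ d, (F i).IsHomogeneous e)
    (Q : MvPolynomial (Fin (N + 1)) ℂ) {e : ℕ} (he : e ≤ d) (hQ : Q.IsHomogeneous e)
    (f : ℂ → Fin (N + 1) → ℂ) (hf : ∀ j, AnalyticOnNhd ℂ (fun w => f w j) (PB 1))
    (hne : ∀ w ∈ PB 1, f w ≠ 0) (hX : ∀ w ∈ PB 1, ∀ i, eval (f w) (F i) = 0)
    (hP : PowerSum r M f) (hQ1 : PowerUnit M (fun w => eval (f w) Q))
    (hQ0 : ∃ w ∈ PB 1, eval (f w) Q ≠ 0) (hess : ¬ Extends f) :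
    ∃ δ > 0, δ ≤ 1 ∧ ∀ z0 ∈ PB δ, ∀ᶠ z in 𝓝[≠] z0, ∃ P, (∀ t, ∃ j, (P j).eval t ≠ 0) ∧
      IsGmCurve F Q P ∧ Through P (f z) := by
  have hM0 : 0 < M := lt_of_lt_of_le (by positivity) hM
  obtain ⟨u0, ρ0, h1, h2, h3, h4, h5⟩ := hP.norm hM0
  refine punct_main hM F hF Q he hQ f hf hne hX u0 ρ0 h1 h2 h3 h4 h5 ?_ (hQ1.rt hM0) hess
  intro h0
  obtain ⟨w, hw, hw0⟩ := hQ0
  exact hw0 (eq_zero_on one_pos (eval_an hf Q) h0 w hw)

/-- rational curves -/
theorem entire_rat (F : ι → MvPolynomial (Fin (N + 1)) ℂ) (hF : ∀ i, ∃ e, (F i).IsHomogeneous e)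
    (Q : MvPolynomial (Fin (N + 1)) ℂ) {e : ℕ} (hQ : Q.IsHomogeneous e)
    (f : ℂ → Fin (N + 1) → ℂ) (hf : ∀ j, Differentiable ℂ (fun w => f w j))
    (hne : ∀ w, f w ≠ 0) (hX : ∀ w, On F Q (f w)) (hext : Extends (fun w => f w⁻¹))
    (hnc : ∃ z w j k, f z j * f w k ≠ f z k * f w j) :
    ∃ R : ℝ, ∀ z0 : ℂ, R < ‖z0‖ → ∀ᶠ z in 𝓝[≠] z0, ∃ P, (∀ t, ∃ j, (P j).eval t ≠ 0) ∧
      IsGmCurve F Q P ∧ Through P (f z) := by
  obtain ⟨u, p, hu, hfp⟩ := rational_of_extends f hf hne hext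
  refine UP.entire_main F hF Q hQ f hf hne hX ?_ hnc
  obtain ⟨j, hj⟩ := Function.ne_iff.mp (hne 0)
  have hpj : p j ≠ 0 := by
    intro h0
    apply hj
    rw [hfp, h0, Polynomial.eval_zero, mul_zero]
    rfl
  have hpw : ∀ᶠ w in 𝓝[≠] (0 : ℂ), (p j).eval w⁻¹ ≠ 0 := by
    have h1 : {z : ℂ | (p j).eval z = 0}.Finite := by
      exact Polynomial.finite_setOfPred_isRoot hpj
    have h2 : Tendsto (fun w : ℂ => w⁻¹) (𝓝[≠] 0) (Bornology.cobounded ℂ) :=
      tendsto_inv₀_nhdsNE_zero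
    have h3 : ∀ᶠ z in Bornology.cobounded ℂ, (p j).eval z ≠ 0 := by
      have h4 := h1.isBounded
      rw [← Bornology.isCobounded_compl_iff] at h4
      exact h4
    exact h2.eventually h3
  have hpm : ∀ a, MeromorphicAt (fun w : ℂ => (p a).eval w⁻¹) 0 := by
    intro a
    have h1 : (fun w : ℂ => (p a).eval w⁻¹) = ∑ k ∈ Finset.range ((p a).natDegree + 1),
        fun w : ℂ => (p a).coeff k * w⁻¹ ^ k := by
      funext w
      rw [Finset.sum_apply, Polynomial.eval_eq_sum_range]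
    rw [h1]
    exact MeromorphicAt.sum fun k _ => (MeromorphicAt.const _ 0).fun_mul
      ((MeromorphicAt.id 0).fun_inv.fun_pow k)
  refine ⟨1, fun _ w => f w⁻¹ j, fun _ a w => (p a).eval w⁻¹ / (p j).eval w⁻¹, fun _ => ?_,
    fun _ => ?_, fun _ a => (hpm a).fun_div (hpm j), ?_⟩
  · filter_upwards [self_mem_nhdsWithin] with w hw
    exact ((hf j).analyticAt _).comp (analyticAt_inv hw)
  · filter_upwards [hpw] with w hw
    rw [hfp]
    exact mul_ne_zero (hu _) hw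
  · filter_upwards [hpw] with w hw a
    rw [Fin.sum_univ_one, hfp, hfp, div_eq_mul_inv]
    linear_combination (-(u w⁻¹ * (p a).eval w⁻¹)) * mul_inv_cancel₀ hw

/-- entire curves -/
theorem entire_pow {d r M : ℕ} (hM : (d + 2) ^ (2 * (r + 1)) ≤ M)
    (F : ι → MvPolynomial (Fin (N + 1)) ℂ) (hF : ∀ i, ∃ e ≤ d, (F i).IsHomogeneous e)
    (Q : MvPolynomial (Fin (N + 1)) ℂ) {e : ℕ} (he : e ≤ d) (hQ : Q.IsHomogeneous e)
    (f : ℂ → Fin (N + 1) → ℂ) (hf : ∀ j, Differentiable ℂ (fun w => f w j))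
    (hne : ∀ w, f w ≠ 0) (hX : ∀ w i, eval (f w) (F i) = 0)
    (hP : PowerSum r M (fun w => f w⁻¹))
    (hQ1 : (¬ Extends (fun w => f w⁻¹) ∧ PowerUnit M (fun w => eval (f w⁻¹) Q) ∧
      ∃ z, eval (f z) Q ≠ 0) ∨ ∀ z, eval (f z) Q ≠ 0)
    (hnc : ∃ z w j k, f z j * f w k ≠ f z k * f w j) :
    ∃ R : ℝ, ∀ z0 : ℂ, R < ‖z0‖ → ∀ᶠ z in 𝓝[≠] z0, ∃ P, (∀ t, ∃ j, (P j).eval t ≠ 0) ∧
      IsGmCurve F Q P ∧ Through P (f z) := by
  by_cases hext : Extends (fun w => f w⁻¹)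
  · -- a rational curve
    have hQ2 : ∀ z, eval (f z) Q ≠ 0 := by
      rcases hQ1 with h | h
      · exact absurd hext h.1
      · exact h
    exact entire_rat F (fun i => ⟨_, (hF i).choose_spec.2⟩) Q hQ f hf hne
      (fun w => ⟨hX w, hQ2 w⟩) hext hnc
  · have hPB1 : ∀ w ∈ PB 1, w⁻¹ ≠ 0 := fun w hw => inv_ne_zero hw.1
    have hfa : ∀ j, AnalyticOnNhd ℂ (fun w => f w⁻¹ j) (PB 1) := fun j w hw =>
      ((hf j).analyticAt _).comp (analyticAt_inv hw.1)
    have hQ3 : PowerUnit M (fun w => eval (f w⁻¹) Q) := by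
      rcases hQ1 with h | h
      · exact h.2.1
      · exact PowerUnit.of_ne (on_pun one_pos (eval_an (f := fun w => f w⁻¹) hfa Q))
          (Eventually.of_forall fun w => h _)
    obtain ⟨z1, hz1⟩ : ∃ z, eval (f z) Q ≠ 0 := by
      rcases hQ1 with h | h
      · exact h.2.2
      · exact ⟨0, h 0⟩
    have hQ4 : ∃ w ∈ PB 1, eval (f w⁻¹) Q ≠ 0 := by
      by_contra hcon
      push Not at hcon
      have han : AnalyticOnNhd ℂ (fun z => eval (f z) Q) univ := by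
        intro z _
        simp only [eval_eq']
        apply Finset.analyticAt_fun_sum
        intro α _
        apply AnalyticAt.fun_mul analyticAt_const
        apply Finset.analyticAt_fun_prod
        intro j _
        exact ((hf j).analyticAt z).fun_pow _
      have h2 : ∀ᶠ z in 𝓝[≠] (2 : ℂ), eval (f z) Q = 0 := by
        have h3 : ∀ᶠ z in 𝓝 (2 : ℂ), 1 < ‖z‖ :=
          (continuous_norm.continuousAt (x := (2 : ℂ))).eventually_mem
            (Ioi_mem_nhds (by simp))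
        filter_upwards [mem_nhdsWithin_of_mem_nhds h3] with z hz
        have h4 := hcon z⁻¹ ⟨inv_ne_zero (fun h0 => by
          rw [h0, norm_zero] at hz
          exact absurd hz (by norm_num)), by
          rw [norm_inv]
          exact inv_lt_one_of_one_lt₀ hz⟩
        rwa [inv_inv] at h4
      exact hz1 (han.eqOn_zero_of_preconnected_of_frequently_eq_zero isPreconnected_univ
        (mem_univ 2) h2.frequently (mem_univ z1))
    obtain ⟨δ, hδ, -, h⟩ := punct_pow hM F hF Q he hQ (fun w => f w⁻¹) hfa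
      (fun w _ => hne _) (fun w _ => hX _) hP hQ3 hQ4 hext
    refine ⟨δ⁻¹, fun z0 hz0 => ?_⟩
    have hz0' : z0⁻¹ ∈ PB δ := inv_mem_PB hδ hz0
    have hz0n : z0 ≠ 0 := by
      intro h0
      exact hz0'.1 (by rw [h0, inv_zero])
    have h1 := h z0⁻¹ hz0'
    have h2 : Tendsto (fun z : ℂ => z⁻¹) (𝓝[≠] z0) (𝓝[≠] z0⁻¹) := by
      apply tendsto_nhdsWithin_of_tendsto_nhds_of_eventually_within
      · exact (continuousAt_inv₀ hz0n).tendsto.mono_left nhdsWithin_le_nhds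
      · filter_upwards [self_mem_nhdsWithin] with z hz h3
        exact hz (inv_injective h3)
    filter_upwards [h2.eventually h1] with z hz
    obtain ⟨P, hP, hP1, hP2⟩ := hz
    refine ⟨P, hP, hP1, ?_⟩
    rw [inv_inv] at hP2
    exact hP2

/-- a morphism from the multiplicative group composed with `exp (1 / w)` -/
theorem powerSum_exp' (P : Fin (N + 1) → Polynomial ℂ) :
    ∃ r, ∀ M, PowerSum r M (fun w => fun j => (P j).eval (Complex.exp w⁻¹)) := by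
  classical
  obtain ⟨d, hd⟩ : ∃ d, ∀ j, (P j).natDegree < d := by
    refine ⟨Finset.univ.sup (fun j => (P j).natDegree) + 1, fun j => ?_⟩
    exact Nat.lt_succ_of_le (Finset.le_sup (f := fun j => (P j).natDegree) (Finset.mem_univ j))
  refine ⟨d, fun M => ⟨fun i w => Complex.exp w⁻¹ ^ (i : ℕ), fun _ _ => 1,
    fun i j _ => (P j).coeff i, fun i => ?_, fun i => ?_,
    fun i => Eventually.of_forall fun w => analyticAt_const,
    fun i j => MeromorphicAt.const _ 0, ?_⟩⟩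
  · filter_upwards [self_mem_nhdsWithin] with w hw
    exact ((analyticAt_inv hw).cexp).fun_pow _
  · exact Eventually.of_forall fun w => pow_ne_zero _ (Complex.exp_ne_zero _)
  · refine Eventually.of_forall fun w j => ?_
    change (P j).eval (Complex.exp w⁻¹) =
      ∑ k : Fin d, (P j).coeff k * (Complex.exp w⁻¹ ^ (k : ℕ) * 1 ^ M)
    rw [Polynomial.eval_eq_sum_range' (hd j), Finset.sum_range]
    exact Finset.sum_congr rfl fun k _ => by rw [one_pow, mul_one]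

end Pool.Agent.R849.HP
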