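import Mathlib
import Pool.Agent.R849.HP.Ent

set_option autoImplicit false

/-! # Varieties defined by polynomials in `M`-th powers of the coordinates -/

namespace Pool.Agent.R849.HP

open MvPolynomial Metric Set Filter Topology Pool.Agent.W603.BP Pool.Agent.TH143
open Pool.Agent.R849.UP

variable {N : ℕ} {ι : Type}

theorem gr_of_pow {e e' : ℂ → ℂ} {M : ℕ} (hM : 0 < M)
    (h : Gr (fun w => e w ^ M) (fun w => e' w ^ M)) : Gr e e' := by
  obtain ⟨C, K, h⟩ := h
  refine ⟨max C 1, K, ?_⟩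
  filter_upwards [h, PB_mem one_pos] with w hw hw1
  have hC : (0 : ℝ) ≤ max C 1 := le_trans zero_le_one (le_max_right _ _)
  rw [norm_pow, norm_pow] at hw
  have h1 : ‖w‖ ^ (K * M) ≤ ‖w‖ ^ K :=
    pow_le_pow_of_le_one (norm_nonneg _) hw1.2.le (Nat.le_mul_of_pos_right K hM)
  have h2 : (‖e w‖ * ‖w‖ ^ K) ^ M ≤ (max C 1 * ‖e' w‖) ^ M := by
    rw [mul_pow, mul_pow, ← pow_mul]
    calc ‖e w‖ ^ M * ‖w‖ ^ (K * M) ≤ ‖e w‖ ^ M * ‖w‖ ^ K :=
          mul_le_mul_of_nonneg_left h1 (by positivity)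
      _ ≤ C * ‖e' w‖ ^ M := hw
      _ ≤ max C 1 ^ M * ‖e' w‖ ^ M := by
          refine mul_le_mul_of_nonneg_right ?_ (by positivity)
          calc C ≤ max C 1 := le_max_left _ _
            _ ≤ max C 1 ^ M := le_self_pow₀ (le_max_right _ _) hM.ne'
  exact le_of_pow_le_pow_left₀ hM.ne' (mul_nonneg hC (norm_nonneg _)) h2

theorem ext_pow {M : ℕ} (hM : 0 < M) {y : ℂ → Fin (N + 1) → ℂ}
    (hy : ∀ j, AnalyticOnNhd ℂ (fun w => y w j) (PB 1)) (hne : ∀ w ∈ PB 1, y w ≠ 0)
    (h : Extends (fun w j => y w j ^ M)) : Extends y := by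
  obtain ⟨g, hg, hg0, hfg⟩ := h
  refine extends_of y hy hne fun j k hj hk => ?_
  refine growth_mero (on_pun one_pos (hy j)) (on_pun one_pos (hy k)) hk
    (gr_of_pow hM (MRel.gr ?_))
  have hga : ∀ a, AnalyticAt ℂ (fun w => g w a) 0 := fun a => by
    have h1 : DifferentiableOn ℂ (fun w => g w a) (ball 0 1) := fun w hw =>
      (differentiableWithinAt_pi.1 (hg w hw)) a
    exact h1.analyticAt (isOpen_ball.mem_nhds (mem_ball_self one_pos))
  have hgk : Nz (fun w => g w k) := by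
    intro h0
    apply hk
    filter_upwards [h0, PB_mem one_pos] with w h1 h2
    obtain ⟨c, hc⟩ := hfg w (mem_disc.2 h2)
    have h3 : y w k ^ M = c * g w k := congrFun hc k
    rw [h1, mul_zero] at h3
    exact pow_eq_zero_iff hM.ne' |>.1 h3
  refine ⟨fun w => g w j / g w k, (hga j).meromorphicAt.fun_div (hga k).meromorphicAt, ?_⟩
  filter_upwards [mero_ne (hga k).meromorphicAt hgk, PB_mem one_pos] with w h1 h2
  obtain ⟨c, hc⟩ := hfg w (mem_disc.2 h2)
  have h3 : y w k ^ M = c * g w k := congrFun hc k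
  have h4 : y w j ^ M = c * g w j := congrFun hc j
  rw [h3, h4]
  field_simp

/-- curves in varieties defined by polynomials in the `M`-th powers of the coordinates -/
theorem fermat_punct {d M : ℕ} (hM : (d + 2) ^ (2 * (N + 2)) ≤ M)
    (F : ι → MvPolynomial (Fin (N + 1)) ℂ) (hF : ∀ i, ∃ e ≤ d, (F i).IsHomogeneous e)
    (Q : MvPolynomial (Fin (N + 1)) ℂ) {e : ℕ} (he : e ≤ d) (hQ : Q.IsHomogeneous e)
    (y : ℂ → Fin (N + 1) → ℂ) (hy : ∀ j, AnalyticOnNhd ℂ (fun w => y w j) (PB 1))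
    (hne : ∀ w ∈ PB 1, y w ≠ 0) (hX : ∀ w ∈ PB 1, ∀ i, eval (fun j => y w j ^ M) (F i) = 0)
    (hQ1 : PowerUnit M (fun w => eval (fun j => y w j ^ M) Q))
    (hQ0 : ∃ w ∈ PB 1, eval (fun j => y w j ^ M) Q ≠ 0) (hess : ¬ Extends y) :
    ∃ δ > 0, δ ≤ 1 ∧ ∀ z0 ∈ PB δ, ∀ᶠ z in 𝓝[≠] z0, ∃ b : Fin (N + 1) → ℤ,
      (∃ j k, b j ≠ b k ∧ y z j ≠ 0 ∧ y z k ≠ 0) ∧
      ∀ t : ℂ, t ≠ 0 → (∀ i, eval (fun j => (y z j * t ^ b j) ^ M) (F i) = 0) ∧
        eval (fun j => (y z j * t ^ b j) ^ M) Q ≠ 0 := by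
  classical
  have hM0 : 0 < M := lt_of_lt_of_le (by positivity) hM
  have hf : ∀ j, AnalyticOnNhd ℂ (fun w => y w j ^ M) (PB 1) := fun j w hw =>
    (hy j w hw).fun_pow M
  have hfne : ∀ w ∈ PB 1, (fun j => y w j ^ M) ≠ (0 : Fin (N + 1) → ℂ) := by
    intro w hw h0
    apply hne w hw
    funext j
    exact pow_eq_zero_iff hM0.ne' |>.1 (congrFun h0 j)
  -- the terms
  let u0 : Fin (N + 1) → ℂ → ℂ := fun j => if Nz (fun w => y w j) then fun w => y w j ^ M else
    fun _ => 1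
  let ρ0 : Fin (N + 1) → Fin (N + 1) → ℂ → ℂ := fun j a _ =>
    if Nz (fun w => y w j) ∧ a = j then 1 else 0
  have hyP : ∀ j, Pun (fun w => y w j) := fun j => on_pun one_pos (hy j)
  have hu0 : ∀ j, Pun (u0 j) := by
    intro j
    by_cases hj : Nz (fun w => y w j)
    · simp only [u0, if_pos hj]
      exact (hyP j).pow M
    · simp only [u0, if_neg hj]
      exact Eventually.of_forall fun w => analyticAt_const
  have hn0 : ∀ j, Nz (u0 j) := by
    intro j
    by_cases hj : Nz (fun w => y w j)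
    · simp only [u0, if_pos hj]
      intro h0
      apply hj
      filter_upwards [h0] with w hw
      exact pow_eq_zero_iff hM0.ne' |>.1 hw
    · simp only [u0, if_neg hj]
      intro h0
      obtain ⟨w, hw⟩ := h0.exists
      exact one_ne_zero hw
  have hr0 : ∀ j, Rt M (u0 j) := by
    intro j
    by_cases hj : Nz (fun w => y w j)
    · simp only [u0, if_pos hj]
      exact Rt.of (e := fun _ => 1) hM0 (Eventually.of_forall fun w => analyticAt_const)
        (Eventually.of_forall fun w => one_ne_zero) (hyP j)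
        (Eventually.of_forall fun w => by rw [one_mul])
    · simp only [u0, if_neg hj]
      exact ⟨fun _ => 1, Eventually.of_forall fun w => analyticAt_const,
        Eventually.of_forall fun w => one_pow _⟩
  -- the coordinates which are not zero
  have hterm : ∀ z ∈ PB 1, ∀ (c : Fin (N + 1) → ℂ) a,
      ∑ j, u0 j z * c j * ρ0 j a z = y z a ^ M * c a := by
    intro z hz c a
    by_cases ha : Nz (fun w => y w a)
    · rw [Finset.sum_eq_single a]
      · simp only [u0, ρ0, if_pos ha, and_self, ha, if_true, mul_one]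
      · intro j _ hj
        have : ρ0 j a z = 0 := by
          simp only [ρ0]
          exact if_neg fun h => hj h.2.symm
        rw [this, mul_zero]
      · intro h
        exact absurd (Finset.mem_univ a) h
    · have h1 : y z a = 0 := eq_zero_on one_pos (hy a) (not_not.1 ha) z hz
      rw [h1, zero_pow hM0.ne', zero_mul]
      refine Finset.sum_eq_zero fun j _ => ?_
      have : ρ0 j a z = 0 := by
        simp only [ρ0]
        refine if_neg fun h => ?_
        rw [h.2] at ha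
        exact ha h.1
      rw [this, mul_zero]
  obtain ⟨b, δ, hδ, hδ1, h⟩ := sum_global hM (fun w j => y w j ^ M) hf hfne u0 ρ0 hu0 hn0 hr0
    (fun j a => MeromorphicAt.const _ 0) (by
      filter_upwards [PB_mem one_pos] with w hw a
      have h1 := hterm w hw (fun _ => 1) a
      simp only [mul_one] at h1
      exact h1.symm) Q (hQ.totalDegree_le.trans he) (fun h0 => by
      obtain ⟨w, hw, hw0⟩ := hQ0
      exact hw0 (eq_zero_on one_pos (eval_an (f := fun w j => y w j ^ M) hf Q) h0 w hw))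
      (hQ1.rt hM0) (fun h => hess (ext_pow hM0 hy hne h))
  refine ⟨δ, hδ, hδ1, fun z0 hz0 => ?_⟩
  have hPB : ∀ᶠ z in 𝓝[≠] z0, z ∈ PB δ := mem_nhdsWithin_of_mem_nhds ((PB_open δ).mem_nhds hz0)
  filter_upwards [h z0 hz0, hPB] with z hz hzδ
  obtain ⟨w, hwt, -, hw1, hwQ, ⟨t, ht, j0, j1, hnc⟩, hG⟩ := hz
  have hz1 : z ∈ PB 1 := PB_mono hδ1 hzδ
  have hwt' : ∀ t a, w t a = y z a ^ M * t ^ b a := fun t a => by
    rw [hwt, hterm z hz1]
  -- the M-th powers
  have hwM : ∀ t : ℂ, w (t ^ M) = fun j => (y z j * t ^ b j) ^ M := by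
    intro t
    funext j
    rw [hwt', mul_pow, ← zpow_natCast (t ^ b j), ← zpow_mul, ← zpow_natCast t M, ← zpow_mul,
      mul_comm (b j)]
  refine ⟨b, ⟨j1, j0, ?_, ?_, ?_⟩, fun t ht => ⟨fun i => ?_, ?_⟩⟩
  · intro hb
    apply hnc
    rw [hwt', hwt', hwt', hwt', hb]
    simp only [one_zpow]
    ring
  · intro h0
    apply hnc
    rw [hwt', hwt' 1 j1, h0, zero_pow hM0.ne']
    ring
  · intro h0
    apply hnc
    rw [hwt' 1 j0, hwt' t j0, h0, zero_pow hM0.ne']
    ring
  · rw [← hwM]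
    obtain ⟨e', he', hFe⟩ := hF i
    exact hG (F i) (hFe.totalDegree_le.trans he') (fun x hx => hX x hx i) _ (pow_ne_zero _ ht)
  · rw [← hwM]
    exact hwQ _ (pow_ne_zero _ ht)

/-- a monomial curve -/
noncomputable def monCurve (y : Fin (N + 1) → ℂ) (b : Fin (N + 1) → ℤ) :
    Fin (N + 1) → Polynomial ℂ := fun j =>
  Polynomial.C (y j) * Polynomial.X ^ (b j + (∑ k, (b k).natAbs : ℕ)).toNat

theorem monCurve_eval (y : Fin (N + 1) → ℂ) (b : Fin (N + 1) → ℤ) {t : ℂ} (ht : t ≠ 0)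
    (j : Fin (N + 1)) :
    (monCurve y b j).eval t = t ^ (∑ k, (b k).natAbs : ℕ) * (y j * t ^ b j) := by
  have h1 : (b j).natAbs ≤ ∑ k, (b k).natAbs :=
    Finset.single_le_sum (f := fun k => (b k).natAbs) (fun _ _ => Nat.zero_le _) (Finset.mem_univ j)
  have h2 : (0 : ℤ) ≤ b j + (∑ k, (b k).natAbs : ℕ) := by omega
  unfold monCurve
  rw [Polynomial.eval_mul, Polynomial.eval_C, Polynomial.eval_pow, Polynomial.eval_X,
    ← zpow_natCast t (Int.toNat _), Int.toNat_of_nonneg h2, zpow_add₀ ht, zpow_natCast]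
  ring

end Pool.Agent.R849.HP
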