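import Mathlib
import Pool.Agent.R849.HP.Fermat

set_option autoImplicit false

/-! # Entire curves in varieties defined by polynomials in `M`-th powers -/

namespace Pool.Agent.R849.HP

open MvPolynomial Metric Set Filter Topology Pool.Agent.W603.BP Pool.Agent.TH143
open Pool.Agent.R849.UP

variable {N : ℕ} {ι : Type}

/-- The forms `F i (x_0 ^ M, …, x_N ^ M)`. -/
noncomputable def pow {κ : Type} (M : ℕ) (F : κ → MvPolynomial (Fin (N + 1)) ℂ) :
    κ → MvPolynomial (Fin (N + 1)) ℂ := fun i => expand M (F i)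

theorem expand_hom {M e : ℕ} {G : MvPolynomial (Fin (N + 1)) ℂ} (h : G.IsHomogeneous e) :
    (expand M G).IsHomogeneous (M * e) := by
  have h1 : expand M G = aeval (fun i => (X i : MvPolynomial (Fin (N + 1)) ℂ) ^ M) G := rfl
  rw [h1]
  refine h.aeval _ fun i => ?_
  have h2 := (isHomogeneous_X ℂ i).pow M
  rwa [one_mul] at h2

theorem gm_of_mon (F : ι → MvPolynomial (Fin (N + 1)) ℂ) (hF : ∀ i, ∃ e, (F i).IsHomogeneous e)
    (Q : MvPolynomial (Fin (N + 1)) ℂ) {e : ℕ} (hQ : Q.IsHomogeneous e)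
    {y : Fin (N + 1) → ℂ} {b : Fin (N + 1) → ℤ} (hb : ∃ j k, b j ≠ b k ∧ y j ≠ 0 ∧ y k ≠ 0)
    (h : ∀ t : ℂ, t ≠ 0 → On F Q (fun j => y j * t ^ b j)) :
    IsGmCurve F Q (monCurve y b) ∧ Through (monCurve y b) y := by
  obtain ⟨j, k, hjk, hj, hk⟩ := hb
  have hne : ∀ t : ℂ, t ≠ 0 → ∀ a, y a ≠ 0 → (monCurve y b a).eval t ≠ 0 := by
    intro t ht a ha
    rw [monCurve_eval y b ht]
    exact mul_ne_zero (pow_ne_zero _ ht) (mul_ne_zero ha (zpow_ne_zero _ ht))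
  refine ⟨⟨fun t ht => ⟨j, hne t ht j hj⟩, fun t ht => ?_, ⟨1, 2, one_ne_zero, two_ne_zero, j, k,
    ?_⟩⟩, ⟨1, 1, one_ne_zero, one_ne_zero, fun a => ?_⟩⟩
  · have h1 : (fun a => (monCurve y b a).eval t) =
        fun a => t ^ (∑ k, (b k).natAbs : ℕ) * (y a * t ^ b a) :=
      funext fun a => monCurve_eval y b ht a
    rw [h1]
    refine ⟨fun i => ?_, ?_⟩
    · obtain ⟨d, hd⟩ := hF i
      rw [Pool.Agent.H159R3.Exp.eval_smul_homog hd, (h t ht).1 i, mul_zero]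
    · rw [Pool.Agent.H159R3.Exp.eval_smul_homog hQ]
      exact mul_ne_zero (pow_ne_zero _ (pow_ne_zero _ ht)) (h t ht).2
  · rw [monCurve_eval y b one_ne_zero, monCurve_eval y b one_ne_zero,
      monCurve_eval y b two_ne_zero, monCurve_eval y b two_ne_zero]
    simp only [one_pow, one_zpow, one_mul, mul_one]
    intro h0
    have h2 : y j * y k * (2 : ℂ) ^ (∑ k, (b k).natAbs : ℕ) ≠ 0 :=
      mul_ne_zero (mul_ne_zero hj hk) (pow_ne_zero _ two_ne_zero)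
    have h3 : (2 : ℂ) ^ b k = 2 ^ b j := mul_left_cancel₀ h2 (by linear_combination h0)
    have h4 : (2 : ℝ) ^ b k = 2 ^ b j := by
      have h5 := congrArg (fun x : ℂ => ‖x‖) h3
      simpa [norm_zpow] using h5
    exact hjk (zpow_right_injective₀ (by norm_num) (by norm_num) h4).symm
  · rw [monCurve_eval y b one_ne_zero, one_pow, one_zpow, mul_one]

/-- holomorphic maps from the punctured disc -/
theorem cover_punct {d M : ℕ} (hM : (d + 2) ^ (2 * (N + 2)) ≤ M)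
    (F : ι → MvPolynomial (Fin (N + 1)) ℂ) (hF : ∀ i, ∃ e ≤ d, (F i).IsHomogeneous e)
    (Q : MvPolynomial (Fin (N + 1)) ℂ) {e : ℕ} (he : e ≤ d) (hQ : Q.IsHomogeneous e)
    (y : ℂ → Fin (N + 1) → ℂ) (hy : ∀ j, AnalyticOnNhd ℂ (fun w => y w j) (PB 1))
    (hne : ∀ w ∈ PB 1, y w ≠ 0) (hX : ∀ w ∈ PB 1, On (pow M F) (expand M Q) (y w))
    (hess : ¬ Extends y) :
    ∃ δ > 0, δ ≤ 1 ∧ ∀ z0 ∈ PB δ, ∀ᶠ z in 𝓝[≠] z0, ∃ P, IsGmCurve (pow M F) (expand M Q) P ∧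
      Through P (y z) := by
  have hX1 : ∀ w ∈ PB 1, ∀ i, eval (fun j => y w j ^ M) (F i) = 0 := fun w hw i => by
    have h1 := (hX w hw).1 i
    rw [pow, eval_expand] at h1
    exact h1
  have hQ2 : ∀ w ∈ PB 1, eval (fun j => y w j ^ M) Q ≠ 0 := fun w hw => by
    have h1 := (hX w hw).2
    rw [eval_expand] at h1
    exact h1
  have hfa : ∀ j, AnalyticOnNhd ℂ (fun w => y w j ^ M) (PB 1) := fun j w hw =>
    (hy j w hw).fun_pow M
  obtain ⟨w1, hw1⟩ := PB_nonempty one_pos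
  obtain ⟨δ, hδ, hδ1, h⟩ := fermat_punct hM F hF Q he hQ y hy hne hX1
    (PowerUnit.of_ne (on_pun one_pos (eval_an (f := fun w j => y w j ^ M) hfa Q)) (by
      filter_upwards [PB_mem one_pos] with w hw
      exact hQ2 w hw)) ⟨w1, hw1, hQ2 w1 hw1⟩ hess
  refine ⟨δ, hδ, hδ1, fun z0 hz0 => ?_⟩
  filter_upwards [h z0 hz0] with z hz
  obtain ⟨b, hb, hz⟩ := hz
  refine ⟨_, gm_of_mon (pow M F) (fun i => ⟨_, expand_hom (hF i).choose_spec.2⟩) (expand M Q)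
    (expand_hom hQ) hb fun t ht => ⟨fun i => ?_, ?_⟩⟩
  · rw [pow, eval_expand]
    exact (hz t ht).1 i
  · rw [eval_expand]
    exact (hz t ht).2

/-- entire curves -/
theorem cover_entire {d M : ℕ} (hM : (d + 2) ^ (2 * (N + 2)) ≤ M)
    (F : ι → MvPolynomial (Fin (N + 1)) ℂ) (hF : ∀ i, ∃ e ≤ d, (F i).IsHomogeneous e)
    (Q : MvPolynomial (Fin (N + 1)) ℂ) {e : ℕ} (he : e ≤ d) (hQ : Q.IsHomogeneous e)
    (y : ℂ → Fin (N + 1) → ℂ) (hy : ∀ j, Differentiable ℂ (fun w => y w j))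
    (hne : ∀ w, y w ≠ 0) (hX : ∀ w, On (pow M F) (expand M Q) (y w))
    (hnc : ∃ z w j k, y z j * y w k ≠ y z k * y w j) :
    ∃ R : ℝ, ∀ z0 : ℂ, R < ‖z0‖ → ∀ᶠ z in 𝓝[≠] z0, ∃ P, IsGmCurve (pow M F) (expand M Q) P ∧
      Through P (y z) := by
  by_cases hext : Extends (fun w => y w⁻¹)
  · -- a rational curve
    obtain ⟨R, h⟩ := entire_rat (pow M F) (fun i => ⟨_, expand_hom (hF i).choose_spec.2⟩)
      (expand M Q) (expand_hom hQ) y hy hne hX hext hnc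
    refine ⟨R, fun z0 h0 => ?_⟩
    filter_upwards [h z0 h0] with z hz
    obtain ⟨P, -, hP1, hP2⟩ := hz
    exact ⟨P, hP1, hP2⟩
  · obtain ⟨δ, hδ, -, h⟩ := cover_punct hM F hF Q he hQ (fun w => y w⁻¹)
      (fun j w hw => ((hy j).analyticAt _).comp (analyticAt_inv hw.1))
      (fun w _ => hne _) (fun w _ => hX _) hext
    refine ⟨δ⁻¹, fun z0 hz0 => ?_⟩
    have hz0' : z0⁻¹ ∈ PB δ := inv_mem_PB hδ hz0
    have hz0n : z0 ≠ 0 := by
      intro h0
      exact hz0'.1 (by rw [h0, inv_zero])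
    have h1 := h z0⁻¹ hz0'
    have h2 : Tendsto (fun z : ℂ => z⁻¹) (𝓝[≠] z0) (𝓝[≠] z0⁻¹) := by
      apply tendsto_nhdsWithin_of_tendsto_nhds_of_eventually_within
      · exact (continuousAt_inv₀ hz0n).tendsto.mono_left nhdsWithin_le_nhds
      · filter_upwards [self_mem_nhdsWithin] with z hz h3
        exact hz (inv_injective h3)
    filter_upwards [h2.eventually h1] with z hz
    obtain ⟨P, hP1, hP2⟩ := hz
    refine ⟨P, hP1, ?_⟩
    rw [inv_inv] at hP2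
    exact hP2

end Pool.Agent.R849.HP
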