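import Mathlib
import Pool.Agent.R849.HP.Covers

set_option autoImplicit false

/-! # The curves of the main theorems -/

namespace Pool.Agent.R849.HP

open MvPolynomial Metric Set Filter Topology
open Pool.Agent.TH143 Pool.Agent.W603.BP Pool.Agent.R849.UP

/-- A holomorphic map from the punctured unit disc to the projective variety `F = 0`, with an
essential singularity at the origin, not inside `Q = 0`, such that near the origin the homogeneous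
coordinates are sums of `r` terms `ρ e g ^ M` (`ρ` meromorphic at the origin, `e` without zeros, `g`
arbitrary) and `Q` is `e g ^ M`. -/
structure PunctCurve {N : ℕ} {ι : Type} (F : ι → MvPolynomial (Fin (N + 1)) ℂ)
    (Q : MvPolynomial (Fin (N + 1)) ℂ) (r M : ℕ) (f : ℂ → Fin (N + 1) → ℂ) : Prop where
  an : ∀ j, AnalyticOnNhd ℂ (fun w => f w j) {w : ℂ | w ≠ 0 ∧ ‖w‖ < 1}
  ne : ∀ w : ℂ, w ≠ 0 → ‖w‖ < 1 → f w ≠ 0
  eqs : ∀ w : ℂ, w ≠ 0 → ‖w‖ < 1 → ∀ i, eval (f w) (F i) = 0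
  inter : ∃ w : ℂ, w ≠ 0 ∧ ‖w‖ < 1 ∧ eval (f w) Q ≠ 0
  bdry : PowerUnit M (fun w => eval (f w) Q)
  power : PowerSum r M f
  ess : ¬ Extends f

/-- A nonconstant holomorphic map from the line to the projective variety `F = 0`, such that near
infinity the homogeneous coordinates are sums of `r` terms `ρ e g ^ M` (`ρ` meromorphic at
infinity, `e` without zeros, `g` arbitrary), and which either does not meet `Q = 0` or is
transcendental, not inside `Q = 0`, with `Q = e g ^ M` near infinity. -/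
structure EntCurve {N : ℕ} {ι : Type} (F : ι → MvPolynomial (Fin (N + 1)) ℂ)
    (Q : MvPolynomial (Fin (N + 1)) ℂ) (r M : ℕ) (f : ℂ → Fin (N + 1) → ℂ) : Prop where
  an : ∀ j, Differentiable ℂ (fun z => f z j)
  ne : ∀ z : ℂ, f z ≠ 0
  eqs : ∀ z : ℂ, ∀ i, eval (f z) (F i) = 0
  bdry : (¬ Extends (fun w => f w⁻¹) ∧ PowerUnit M (fun w => eval (f w⁻¹) Q) ∧
    ∃ z, eval (f z) Q ≠ 0) ∨ ∀ z, eval (f z) Q ≠ 0
  power : PowerSum r M (fun w => f w⁻¹)
  nonconst : ∃ z w j k, f z j * f w k ≠ f z k * f w j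

/-- A holomorphic map from the punctured unit disc to the variety `F = 0`, `Q ≠ 0`, with an
essential singularity at the origin. -/
structure Disc {N : ℕ} {ι : Type} (F : ι → MvPolynomial (Fin (N + 1)) ℂ)
    (Q : MvPolynomial (Fin (N + 1)) ℂ) (f : ℂ → Fin (N + 1) → ℂ) : Prop where
  an : ∀ j, AnalyticOnNhd ℂ (fun w => f w j) {w : ℂ | w ≠ 0 ∧ ‖w‖ < 1}
  ne : ∀ w : ℂ, w ≠ 0 → ‖w‖ < 1 → f w ≠ 0
  on : ∀ w : ℂ, w ≠ 0 → ‖w‖ < 1 → On F Q (f w)
  ess : ¬ Extends f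

/-- A nonconstant holomorphic map from the line to the variety `F = 0`, `Q ≠ 0`. -/
structure Line {N : ℕ} {ι : Type} (F : ι → MvPolynomial (Fin (N + 1)) ℂ)
    (Q : MvPolynomial (Fin (N + 1)) ℂ) (f : ℂ → Fin (N + 1) → ℂ) : Prop where
  an : ∀ j, Differentiable ℂ (fun z => f z j)
  ne : ∀ z : ℂ, f z ≠ 0
  on : ∀ z : ℂ, On F Q (f z)
  nonconst : ∃ z w j k, f z j * f w k ≠ f z k * f w j

variable {N : ℕ} {ι : Type}

theorem eval_analytic {f : ℂ → Fin (N + 1) → ℂ} {S : Set ℂ}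
    (hf : ∀ j, AnalyticOnNhd ℂ (fun w => f w j) S) (G : MvPolynomial (Fin (N + 1)) ℂ) :
    AnalyticOnNhd ℂ (fun w => eval (f w) G) S := by
  intro w hw
  have : (fun w => eval (f w) G) = fun w => ∑ α ∈ G.support, G.coeff α * ∏ j, f w j ^ α j := by
    funext w
    rw [eval_eq']
  rw [this]
  apply Finset.analyticAt_fun_sum
  intro α _
  apply analyticAt_const.fun_mul
  apply Finset.analyticAt_fun_prod
  intro j _
  exact (hf j w hw).fun_pow _

theorem zero_of_through {P : Fin (N + 1) → Polynomial ℂ} {x : Fin (N + 1) → ℂ}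
    (h : Through P x) {G : MvPolynomial (Fin (N + 1)) ℂ} {d : ℕ} (hG : G.IsHomogeneous d)
    (h0 : ∀ t, t ≠ 0 → eval (fun j => (P j).eval t) G = 0) : eval x G = 0 := by
  obtain ⟨t, c, ht, hc, h⟩ := h
  have h1 := h0 t ht
  rw [show (fun j => (P j).eval t) = fun j => c * x j from funext h,
    Pool.Agent.H159R3.Exp.eval_smul_homog hG] at h1
  exact (mul_eq_zero.mp h1).resolve_left (pow_ne_zero _ hc)

/-- all curves lie in `Z` if the algebraic ones do -/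
theorem lies_in (F : ι → MvPolynomial (Fin (N + 1)) ℂ) (Q : MvPolynomial (Fin (N + 1)) ℂ)
    {Z : Set (MvPolynomial (Fin (N + 1)) ℂ)} (hZ : ∀ G ∈ Z, ∃ d, G.IsHomogeneous d)
    (h : ∀ P, IsGmCurve F Q P → ∀ t, t ≠ 0 → ∀ G ∈ Z, eval (fun j => (P j).eval t) G = 0)
    {S : Set ℂ} (hS : IsPreconnected S) {f : ℂ → Fin (N + 1) → ℂ}
    (hf : ∀ j, AnalyticOnNhd ℂ (fun w => f w j) S) {z0 : ℂ} (hz0 : z0 ∈ S)
    (hloc : ∀ᶠ z in 𝓝[≠] z0, ∃ P, IsGmCurve F Q P ∧ Through P (f z)) :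
    ∀ z ∈ S, ∀ G ∈ Z, eval (f z) G = 0 := by
  intro w hw G hG
  obtain ⟨d, hd⟩ := hZ G hG
  have h1 : ∀ᶠ z in 𝓝[≠] z0, eval (f z) G = 0 := by
    filter_upwards [hloc] with z hz
    obtain ⟨P, hP1, hP2⟩ := hz
    exact zero_of_through hP2 hd (fun t ht => h P hP1 t ht G hG)
  exact (eval_analytic hf G).eqOn_zero_of_preconnected_of_frequently_eq_zero hS hz0
    h1.frequently hw

theorem punct_local {d r M : ℕ} (hM : (d + 2) ^ (2 * (r + 1)) ≤ M)
    (F : ι → MvPolynomial (Fin (N + 1)) ℂ) (hF : ∀ i, ∃ e ≤ d, (F i).IsHomogeneous e)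
    (Q : MvPolynomial (Fin (N + 1)) ℂ) {e : ℕ} (he : e ≤ d) (hQ : Q.IsHomogeneous e)
    (f : ℂ → Fin (N + 1) → ℂ) (hf : PunctCurve F Q r M f) :
    ∃ δ > 0, δ ≤ 1 ∧ ∀ z0 : ℂ, z0 ≠ 0 → ‖z0‖ < δ → ∀ᶠ z in 𝓝[≠] z0, ∃ P, IsGmCurve F Q P ∧
      Through P (f z) := by
  obtain ⟨w0, h1, h2, h3⟩ := hf.inter
  obtain ⟨δ, hδ, hδ1, h⟩ := punct_pow hM F hF Q he hQ f hf.an
    (fun w hw => hf.ne w hw.1 hw.2) (fun w hw => hf.eqs w hw.1 hw.2) hf.power hf.bdry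
    ⟨w0, ⟨h1, h2⟩, h3⟩ hf.ess
  refine ⟨δ, hδ, hδ1, fun z0 h0 h1 => ?_⟩
  filter_upwards [h z0 ⟨h0, h1⟩] with z hz
  obtain ⟨P, -, hP1, hP2⟩ := hz
  exact ⟨P, hP1, hP2⟩

theorem ent_local {d r M : ℕ} (hM : (d + 2) ^ (2 * (r + 1)) ≤ M)
    (F : ι → MvPolynomial (Fin (N + 1)) ℂ) (hF : ∀ i, ∃ e ≤ d, (F i).IsHomogeneous e)
    (Q : MvPolynomial (Fin (N + 1)) ℂ) {e : ℕ} (he : e ≤ d) (hQ : Q.IsHomogeneous e)
    (f : ℂ → Fin (N + 1) → ℂ) (hf : EntCurve F Q r M f) :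
    ∃ R : ℝ, ∀ z0 : ℂ, R < ‖z0‖ → ∀ᶠ z in 𝓝[≠] z0, ∃ P, IsGmCurve F Q P ∧
      Through P (f z) := by
  obtain ⟨R, h⟩ := entire_pow hM F hF Q he hQ f hf.an hf.ne hf.eqs hf.power hf.bdry hf.nonconst
  refine ⟨R, fun z0 h0 => ?_⟩
  filter_upwards [h z0 h0] with z hz
  obtain ⟨P, -, hP1, hP2⟩ := hz
  exact ⟨P, hP1, hP2⟩

theorem exists_big (R : ℝ) : ∃ z0 : ℂ, R < ‖z0‖ := by
  refine ⟨((|R| + 1 : ℝ) : ℂ), ?_⟩
  rw [Complex.norm_real, Real.norm_of_nonneg (by positivity)]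
  linarith [le_abs_self R]

/-- algebraic curves give holomorphic maps from the punctured disc -/
theorem disc_exp {F : ι → MvPolynomial (Fin (N + 1)) ℂ} {Q : MvPolynomial (Fin (N + 1)) ℂ}
    {P : Fin (N + 1) → Polynomial ℂ} (hP : IsGmCurve F Q P) :
    Disc F Q (fun w => fun j => (P j).eval (Complex.exp w⁻¹)) :=
  ⟨fun j w hw => by
    have h2 : AnalyticAt ℂ (fun w : ℂ => Complex.exp w⁻¹) w := (analyticAt_inv hw.1).cexp
    have h3 : AnalyticAt ℂ (fun x : ℂ => (P j).eval x) (Complex.exp w⁻¹) :=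
      (Polynomial.differentiable (P j)).analyticAt _
    exact AnalyticAt.comp (g := fun x : ℂ => (P j).eval x)
      (f := fun w : ℂ => Complex.exp w⁻¹) h3 h2,
  fun w _ _ => by
    obtain ⟨j, hj⟩ := hP.ne (Complex.exp w⁻¹) (Complex.exp_ne_zero _)
    exact Function.ne_iff.mpr ⟨j, hj⟩,
  fun w _ _ => hP.mem _ (Complex.exp_ne_zero _), not_extends_exp F Q P hP⟩

/-- algebraic curves give entire curves -/
theorem line_exp {F : ι → MvPolynomial (Fin (N + 1)) ℂ} {Q : MvPolynomial (Fin (N + 1)) ℂ}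
    {P : Fin (N + 1) → Polynomial ℂ} (hP : IsGmCurve F Q P) :
    Line F Q (fun z => fun j => (P j).eval (Complex.exp z)) :=
  ⟨fun j => (Polynomial.differentiable (P j)).comp Complex.differentiable_exp,
  fun z => by
    obtain ⟨j, hj⟩ := hP.ne (Complex.exp z) (Complex.exp_ne_zero _)
    exact Function.ne_iff.mpr ⟨j, hj⟩,
  fun z => hP.mem _ (Complex.exp_ne_zero _), by
    obtain ⟨s, t, hs, ht, j, k, hst⟩ := hP.nonconst
    refine ⟨Complex.log s, Complex.log t, j, k, ?_⟩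
    simp only [Complex.exp_log hs, Complex.exp_log ht]
    exact hst⟩

/-- the equivalence for sums of powers -/
theorem powers_tfae {d : ℕ} (F : ι → MvPolynomial (Fin (N + 1)) ℂ)
    (hF : ∀ i, ∃ e ≤ d, (F i).IsHomogeneous e) (Q : MvPolynomial (Fin (N + 1)) ℂ) {e : ℕ}
    (he : e ≤ d) (hQ : Q.IsHomogeneous e)
    (Z : Set (MvPolynomial (Fin (N + 1)) ℂ)) (hZ : ∀ G ∈ Z, ∃ d, G.IsHomogeneous d) :
    [∀ P, IsGmCurve F Q P → ∀ t, t ≠ 0 → ∀ G ∈ Z, eval (fun j => (P j).eval t) G = 0,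
      ∀ r M : ℕ, (d + 2) ^ (2 * (r + 1)) ≤ M → ∀ f, EntCurve F Q r M f → ∀ z, ∀ G ∈ Z,
        eval (f z) G = 0,
      ∀ r M : ℕ, (d + 2) ^ (2 * (r + 1)) ≤ M → ∀ f, PunctCurve F Q r M f → ∀ w : ℂ, w ≠ 0 →
        ‖w‖ < 1 → ∀ G ∈ Z, eval (f w) G = 0].TFAE := by
  tfae_have 3 → 1 := by
    intro h P hP t ht G hG
    obtain ⟨w, hw, hwt⟩ := exists_exp_inv ht one_pos
    obtain ⟨r, hr⟩ : ∃ r, ∀ M, PowerSum r M
        (fun w => fun j => (P j).eval (Complex.exp w⁻¹)) := powerSum_exp' P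
    have hD := disc_exp hP
    have h1 := h r _ le_rfl _ ⟨hD.an, hD.ne, fun w h0 h1 => (hD.on w h0 h1).1,
      ⟨w, hw.1, hw.2, (hD.on w hw.1 hw.2).2⟩,
      PowerUnit.of_ne (on_pun one_pos (eval_analytic (S := PB 1) hD.an Q)) (by
        filter_upwards [PB_mem one_pos] with x hx
        exact (hD.on x hx.1 hx.2).2), hr _, hD.ess⟩ w hw.1 hw.2 G hG
    simp only [hwt] at h1
    exact h1
  tfae_have 1 → 3 := by
    intro h r M hM f hf w hw0 hw1
    obtain ⟨δ, hδ, hδ1, hloc⟩ := punct_local hM F hF Q he hQ f hf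
    obtain ⟨z0, hz0⟩ := PB_nonempty hδ
    exact lies_in F Q hZ h (PB_preconn one_pos) hf.an (PB_mono hδ1 hz0)
      (hloc z0 hz0.1 hz0.2) w ⟨hw0, hw1⟩
  tfae_have 2 → 1 := by
    intro h P hP t ht G hG
    have hL := line_exp hP
    obtain ⟨r, hr⟩ : ∃ r, ∀ M, PowerSum r M
        (fun w => fun j => (P j).eval (Complex.exp w⁻¹)) := powerSum_exp' P
    have h1 := h r _ le_rfl _ ⟨hL.an, hL.ne, fun z => (hL.on z).1,
      Or.inr fun z => (hL.on z).2, hr _, hL.nonconst⟩ (Complex.log t) G hG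
    simp only [Complex.exp_log ht] at h1
    exact h1
  tfae_have 1 → 2 := by
    intro h r M hM f hf w
    obtain ⟨R, hloc⟩ := ent_local hM F hF Q he hQ f hf
    obtain ⟨z0, hz0⟩ := exists_big R
    exact lies_in F Q hZ h isPreconnected_univ (fun j z _ => (hf.an j).analyticAt z)
      (mem_univ z0) (hloc z0 hz0) w (mem_univ w)
  tfae_finish

/-- the equivalence for varieties defined by polynomials in `M`-th powers -/
theorem covers_tfae {d M : ℕ} (hM : (d + 2) ^ (2 * (N + 2)) ≤ M)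
    (F : ι → MvPolynomial (Fin (N + 1)) ℂ) (hF : ∀ i, ∃ e ≤ d, (F i).IsHomogeneous e)
    (Q : MvPolynomial (Fin (N + 1)) ℂ) {e : ℕ} (he : e ≤ d) (hQ : Q.IsHomogeneous e)
    (Z : Set (MvPolynomial (Fin (N + 1)) ℂ)) (hZ : ∀ G ∈ Z, ∃ d, G.IsHomogeneous d) :
    [∀ P, IsGmCurve (pow M F) (expand M Q) P → ∀ t, t ≠ 0 → ∀ G ∈ Z,
        eval (fun j => (P j).eval t) G = 0,
      ∀ f, Line (pow M F) (expand M Q) f → ∀ z, ∀ G ∈ Z, eval (f z) G = 0,
      ∀ f, Disc (pow M F) (expand M Q) f → ∀ w : ℂ, w ≠ 0 → ‖w‖ < 1 → ∀ G ∈ Z,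
        eval (f w) G = 0].TFAE := by
  tfae_have 3 → 1 := by
    intro h P hP t ht G hG
    obtain ⟨w, hw, hwt⟩ := exists_exp_inv ht one_pos
    have h1 := h _ (disc_exp hP) w hw.1 hw.2 G hG
    simp only [hwt] at h1
    exact h1
  tfae_have 1 → 3 := by
    intro h f hf w hw0 hw1
    obtain ⟨δ, hδ, hδ1, hloc⟩ := cover_punct hM F hF Q he hQ f hf.an
      (fun w hw => hf.ne w hw.1 hw.2) (fun w hw => hf.on w hw.1 hw.2) hf.ess
    obtain ⟨z0, hz0⟩ := PB_nonempty hδ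
    exact lies_in _ _ hZ h (PB_preconn one_pos) hf.an (PB_mono hδ1 hz0) (hloc z0 hz0) w ⟨hw0, hw1⟩
  tfae_have 2 → 1 := by
    intro h P hP t ht G hG
    have h1 := h _ (line_exp hP) (Complex.log t) G hG
    simp only [Complex.exp_log ht] at h1
    exact h1
  tfae_have 1 → 2 := by
    intro h f hf w
    obtain ⟨R, hloc⟩ := cover_entire hM F hF Q he hQ f hf.an hf.ne hf.on hf.nonconst
    obtain ⟨z0, hz0⟩ := exists_big R
    exact lies_in _ _ hZ h isPreconnected_univ (fun j z _ => (hf.an j).analyticAt z)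
      (mem_univ z0) (hloc z0 hz0) w (mem_univ w)
  tfae_finish

end Pool.Agent.R849.HP
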